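import Pool.Agent.Y6.M.Stm

/-!
Project EM: persistence of the decay along the chain.
-/

open Set Filter Topology
open scoped ComplexConjugate InnerProductSpace

set_option autoImplicit false

namespace Pool.Agent.Y961.EM.PERS

open Pool.Agent.Y6.M

/-! ### Gronwall -/

theorem gron {θ A K : ℝ} (hA : 0 ≤ A) (hK : 0 ≤ K) {E E' : ℝ → ℝ}
    (hE : ∀ t ∈ Icc 0 θ, HasDerivWithinAt E (E' t) (Icc 0 θ) t)
    (hle : ∀ t ∈ Icc 0 θ, E' t ≤ A * E t + K) :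
    ∀ t ∈ Icc 0 θ, E t ≤ Real.exp (A * t) * (E 0 + K * t) := by
  obtain ⟨F, hF⟩ : ∃ F : ℝ → ℝ, F = fun t => Real.exp (-(A * t)) * E t - K * t := ⟨_, rfl⟩
  have hd : ∀ t ∈ Icc 0 θ, HasDerivWithinAt F
      (Real.exp (-(A * t)) * (-(A * 1)) * E t + Real.exp (-(A * t)) * E' t - K * 1)
      (Icc 0 θ) t := by
    intro t ht
    rw [hF]
    have h1 : HasDerivWithinAt (fun t : ℝ => Real.exp (-(A * t)))
        (Real.exp (-(A * t)) * (-(A * 1))) (Icc 0 θ) t :=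
      (((hasDerivAt_id t).const_mul A).neg.exp).hasDerivWithinAt
    exact (h1.mul (hE t ht)).sub ((hasDerivAt_id t).const_mul K).hasDerivWithinAt
  have hanti : AntitoneOn F (Icc 0 θ) := by
    refine antitoneOn_of_deriv_nonpos (convex_Icc 0 θ)
      (fun t ht => (hd t ht).continuousWithinAt) ?_ ?_
    · intro t ht
      exact ((hd t (interior_subset ht)).hasDerivAt
        (mem_interior_iff_mem_nhds.1 ht)).differentiableAt.differentiableWithinAt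
    · intro t ht
      rw [((hd t (interior_subset ht)).hasDerivAt (mem_interior_iff_mem_nhds.1 ht)).deriv]
      have ht0 := interior_subset ht
      have h1 := hle t ht0
      have h2 : Real.exp (-(A * t)) ≤ 1 := by
        rw [Real.exp_le_one_iff]
        have := mul_nonneg hA ht0.1
        linarith
      have h3 : 0 ≤ Real.exp (-(A * t)) := (Real.exp_pos _).le
      have h4 : Real.exp (-(A * t)) * (E' t - A * E t) ≤ Real.exp (-(A * t)) * K :=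
        mul_le_mul_of_nonneg_left (by linarith) h3
      have h5 : Real.exp (-(A * t)) * K ≤ 1 * K := mul_le_mul_of_nonneg_right h2 hK
      nlinarith
  intro t ht
  have h0 : (0 : ℝ) ∈ Icc 0 θ := ⟨le_rfl, ht.1.trans ht.2⟩
  have h1 := hanti h0 ht ht.1
  rw [hF] at h1
  simp only [mul_zero, neg_zero, Real.exp_zero, one_mul, sub_zero] at h1
  have h2 : Real.exp (-(A * t)) * E t ≤ E 0 + K * t := by linarith
  have h3 := mul_le_mul_of_nonneg_left h2 (Real.exp_pos (A * t)).le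
  rwa [← mul_assoc, ← Real.exp_add, add_neg_cancel, Real.exp_zero, one_mul] at h3

/-! ### The frequencies -/

theorem al_one {α : ℕ → ℝ} {G : ℕ → ℂ} {b d : ℕ → ℝ} (h : Chn α G b d) (n : ℕ) : 1 ≤ α n := by
  induction n with
  | zero => exact le_trans (by norm_num) h.A0
  | succ n ih =>
    rw [h.step]
    exact one_le_pow₀ ih

theorem al_mono {α : ℕ → ℝ} {G : ℕ → ℂ} {b d : ℕ → ℝ} (h : Chn α G b d) : Monotone α := by
  refine monotone_nat_of_le_succ fun n => ?_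
  rw [h.step]
  exact le_self_pow₀ (al_one h n) (by omega)

section bounds

variable {α : ℕ → ℝ} {G : ℕ → ℂ} {b d : ℕ → ℝ} (h : Chn α G b d)

include h

theorem cX_le (x y : ℕ → ℂ) (n : ℕ) : ‖cX G b d x y (n + 1)‖ ≤
    3 * (α n * ‖x n‖) * ‖y n‖ + 6 * α (n + 1) * ‖y (n + 1)‖ * ‖x (n + 2)‖ := by
  have hb : ∀ n, 0 < b n := fun n => lt_of_lt_of_le (h.dpos n) (h.db n)
  have hG : ∀ n, ‖G n‖ * d n ≤ 3 * α n := fun n =>
    (mul_le_mul_of_nonneg_left (h.db n) (norm_nonneg _)).trans (h.hi n)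
  unfold cX
  refine (norm_sub_le _ _).trans (add_le_add ?_ ?_)
  · rw [norm_mul, norm_mul, norm_mul, RCLike.norm_conj, RCLike.norm_conj, Complex.norm_real,
      Real.norm_of_nonneg (hb n).le]
    have h1 := mul_le_mul_of_nonneg_right (h.hi n) (mul_nonneg (norm_nonneg (y n))
      (norm_nonneg (x n)))
    nlinarith
  · rw [norm_mul, norm_mul, norm_mul, RCLike.norm_conj, RCLike.norm_conj, Complex.norm_real,
      Real.norm_of_nonneg (add_nonneg (hb _).le (h.dpos _).le)]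
    have h1 : ‖G (n + 1)‖ * (b (n + 1) + d (n + 1)) ≤ 6 * α (n + 1) := by
      have h2 := h.hi (n + 1)
      have h3 := hG (n + 1)
      linarith
    have h2 := mul_le_mul_of_nonneg_right h1 (mul_nonneg (norm_nonneg (y (n + 1)))
      (norm_nonneg (x (n + 2))))
    nlinarith

theorem cY_le (x : ℕ → ℂ) (n : ℕ) : ‖cY G d x n‖ ≤ 3 * (α n * ‖x n‖) * ‖x (n + 1)‖ := by
  have hG : ∀ n, ‖G n‖ * d n ≤ 3 * α n := fun n =>
    (mul_le_mul_of_nonneg_left (h.db n) (norm_nonneg _)).trans (h.hi n)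
  unfold cY
  rw [norm_mul, norm_mul, norm_mul, Complex.norm_real, Real.norm_of_nonneg (h.dpos n).le]
  have h1 := mul_le_mul_of_nonneg_right (hG n) (mul_nonneg (norm_nonneg (x n))
      (norm_nonneg (x (n + 1))))
  nlinarith

end bounds

/-- the energy of a pair -/
theorem pair {α : ℕ → ℝ} {G : ℕ → ℂ} {b d : ℕ → ℝ} (h : Chn α G b d) {M : ℝ} (hM : 1 ≤ M)
    {N : ℕ} {θ : ℝ} {x y f g : ℕ → ℝ → ℂ} (h60 : θ ≤ 60)
    (hs : CSol α G b d N 0 θ x y f g) (hx0 : ∀ n, ‖x n 0‖ ≤ x0 α n) (hy0 : ∀ n, y n 0 = 0)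
    (hb : ∀ n, ∀ t ∈ Icc 0 θ, α n * ‖x n t‖ ≤ M ∧ α (n + 1) * ‖y n t‖ ≤ M) (n : ℕ)
    (hn : n + 1 ≤ N) : ∀ t ∈ Icc 0 θ, ‖x (n + 1) t‖ ^ 2 + ‖y n t‖ ^ 2 ≤
      Real.exp (360 * M) * (241 + 720 * M ^ 3) * ((α (n + 1) ^ (n + 2))⁻¹) ^ 2 := by
  have ha := al_one h
  have ha0 : ∀ n, 0 < α n := fun n => lt_of_lt_of_le one_pos (ha n)
  obtain ⟨K, hK⟩ : ∃ K : ℝ, K = 12 * M ^ 3 * ((α (n + 2))⁻¹) ^ 2 + 4 * φc α (n + 1) := ⟨_, rfl⟩
  have hφ : 0 ≤ φc α (n + 1) := by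
    unfold φc
    exact inv_nonneg.2 (pow_nonneg (ha0 _).le _)
  have hK0 : 0 ≤ K := by
    rw [hK]
    positivity
  have hle := gron (θ := θ) (A := 6 * M) (K := K)
    (E := fun t => ‖x (n + 1) t‖ ^ 2 + ‖y n t‖ ^ 2)
    (E' := fun t => 2 * ⟪x (n + 1) t, cX G b d (fun m => x m t) (fun m => y m t) (n + 1) +
      f (n + 1) t⟫_ℝ + 2 * ⟪y n t, cY G d (fun m => x m t) n + g n t⟫_ℝ)
    (by linarith) hK0
    (fun t ht => ((hs.dx (n + 1) hn t ht).norm_sq).add ((hs.dy n (by omega) t ht).norm_sq))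
    (fun t ht => by
      have h1 := real_inner_le_norm (x (n + 1) t)
        (cX G b d (fun m => x m t) (fun m => y m t) (n + 1) + f (n + 1) t)
      have h2 := real_inner_le_norm (y n t) (cY G d (fun m => x m t) n + g n t)
      have h3 : ‖cX G b d (fun m => x m t) (fun m => y m t) (n + 1) + f (n + 1) t‖ ≤
          3 * M * ‖y n t‖ + 6 * α (n + 1) * ‖y (n + 1) t‖ * ‖x (n + 2) t‖ + φc α (n + 1) := by
        refine (norm_add_le _ _).trans (add_le_add ((cX_le h _ _ n).trans ?_) (hs.pf _ t ht))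
        have := (hb n t ht).1
        gcongr
      have h4 : ‖cY G d (fun m => x m t) n + g n t‖ ≤ 3 * M * ‖x (n + 1) t‖ + φc α (n + 1) := by
        refine (norm_add_le _ _).trans (add_le_add ((cY_le h _ n).trans ?_) (hs.pg _ t ht))
        have := (hb n t ht).1
        gcongr
      have h5 := mul_le_mul_of_nonneg_left h3 (norm_nonneg (x (n + 1) t))
      have h6 := mul_le_mul_of_nonneg_left h4 (norm_nonneg (y n t))
      have h7 : ‖x (n + 1) t‖ * (6 * α (n + 1) * ‖y (n + 1) t‖ * ‖x (n + 2) t‖) ≤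
          6 * M ^ 3 * ((α (n + 2))⁻¹) ^ 2 := by
        have h8 := (hb (n + 1) t ht).1
        have h9 : ‖y (n + 1) t‖ ≤ M * (α (n + 2))⁻¹ := by
          rw [← div_eq_mul_inv, le_div_iff₀ (ha0 _), mul_comm]
          exact (hb (n + 1) t ht).2
        have h10 : ‖x (n + 2) t‖ ≤ M * (α (n + 2))⁻¹ := by
          rw [← div_eq_mul_inv, le_div_iff₀ (ha0 _), mul_comm]
          exact (hb (n + 2) t ht).1
        have h80 : 0 ≤ M * (α (n + 2))⁻¹ := mul_nonneg (by linarith) (inv_nonneg.2 (ha0 _).le)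
        calc ‖x (n + 1) t‖ * (6 * α (n + 1) * ‖y (n + 1) t‖ * ‖x (n + 2) t‖) =
            6 * (α (n + 1) * ‖x (n + 1) t‖) * (‖y (n + 1) t‖ * ‖x (n + 2) t‖) := by ring
          _ ≤ 6 * M * ((M * (α (n + 2))⁻¹) * (M * (α (n + 2))⁻¹)) := by gcongr
          _ = 6 * M ^ 3 * ((α (n + 2))⁻¹) ^ 2 := by ring
      have h11 : ‖x (n + 1) t‖ * φc α (n + 1) ≤ 1 * φc α (n + 1) :=
        mul_le_mul_of_nonneg_right (hs.one _ t ht).1 hφ
      have h12 : ‖y n t‖ * φc α (n + 1) ≤ 1 * φc α (n + 1) :=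
        mul_le_mul_of_nonneg_right (hs.one _ t ht).2 hφ
      have h13 : 12 * M * (‖x (n + 1) t‖ * ‖y n t‖) ≤
          6 * M * (‖x (n + 1) t‖ ^ 2 + ‖y n t‖ ^ 2) := by
        nlinarith [sq_nonneg (‖x (n + 1) t‖ - ‖y n t‖)]
      rw [hK]
      nlinarith)
  intro t ht
  have h1 := hle t ht
  obtain ⟨q, hq⟩ : ∃ q : ℝ, q = (α (n + 1) ^ (n + 2))⁻¹ := ⟨_, rfl⟩
  rw [← hq]
  have hq0 : 0 ≤ q := by
    rw [hq]
    exact inv_nonneg.2 (pow_nonneg (ha0 _).le _)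
  have hE0 : ‖x (n + 1) 0‖ ^ 2 + ‖y n 0‖ ^ 2 ≤ q ^ 2 := by
    rw [hy0 n, norm_zero]
    have h2 := hx0 (n + 1)
    have h3 : x0 α (n + 1) = q := by
      rw [hq]
      rfl
    rw [h3] at h2
    have := pow_le_pow_left₀ (norm_nonneg _) h2 2
    linarith
  have hinv : ∀ j, 2 * (n + 2) ≤ j → (α (n + 1) ^ j)⁻¹ ≤ q ^ 2 := by
    intro j hj
    rw [hq, ← inv_pow, ← inv_pow, ← pow_mul]
    exact pow_le_pow_of_le_one (inv_nonneg.2 (ha0 _).le) (inv_le_one_of_one_le₀ (ha _)) (by omega)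
  have hK1 : K ≤ (12 * M ^ 3 + 4) * q ^ 2 := by
    rw [hK]
    have h2 : ((α (n + 2))⁻¹) ^ 2 ≤ q ^ 2 := by
      rw [h.step (n + 1), inv_pow, ← pow_mul]
      exact hinv _ (by omega)
    have h3 : φc α (n + 1) ≤ q ^ 2 := by
      unfold φc
      exact hinv _ (by omega)
    have h4 : 12 * M ^ 3 * ((α (n + 2))⁻¹) ^ 2 ≤ 12 * M ^ 3 * q ^ 2 := by gcongr
    linarith
  have hexp : Real.exp (6 * M * t) ≤ Real.exp (360 * M) := by
    rw [Real.exp_le_exp]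
    have := ht.2
    nlinarith
  calc ‖x (n + 1) t‖ ^ 2 + ‖y n t‖ ^ 2 ≤ Real.exp (6 * M * t) *
      ((‖x (n + 1) 0‖ ^ 2 + ‖y n 0‖ ^ 2) + K * t) := h1
    _ ≤ Real.exp (360 * M) * (q ^ 2 + (12 * M ^ 3 + 4) * q ^ 2 * 60) := by
      have ht0 := ht.1
      have ht1 := ht.2.trans h60
      gcongr
    _ = Real.exp (360 * M) * (241 + 720 * M ^ 3) * q ^ 2 := by ring

/-- **EM-PERS** -/
theorem t_PERS : Pool.Agent.Y6.M.S_PERS := by
  intro α G b d h k M₀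
  obtain ⟨M, hM⟩ : ∃ M : ℝ, M = max M₀ 1 := ⟨_, rfl⟩
  have hM1 : 1 ≤ M := by rw [hM]; exact le_max_right _ _
  have hM0 : M₀ ≤ M := by rw [hM]; exact le_max_left _ _
  have ha := al_one h
  have ha0 : ∀ n, 0 < α n := fun n => lt_of_lt_of_le one_pos (ha n)
  obtain ⟨C1, hC1⟩ : ∃ C1 : ℝ, C1 = √(Real.exp (360 * M) * (241 + 720 * M ^ 3)) := ⟨_, rfl⟩
  have hC0 : 0 ≤ C1 := by rw [hC1]; exact Real.sqrt_nonneg _
  have hak : 1 ≤ α k ^ k := one_le_pow₀ (ha k)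
  refine ⟨(C1 + 1) * α k ^ k, ?_⟩
  intro N θ x y f g hθ h60 hs hx0 hy0 hb
  have hb' : ∀ n, ∀ t ∈ Icc 0 θ, α n * ‖x n t‖ ≤ M ∧ α (n + 1) * ‖y n t‖ ≤ M := fun n t ht =>
    ⟨(hb n t ht).1.trans hM0, (hb n t ht).2.trans hM0⟩
  have key : ∀ n, n + 1 ≤ N → ∀ t ∈ Icc 0 θ, ∀ v : ℝ, 0 ≤ v →
      v ^ 2 ≤ ‖x (n + 1) t‖ ^ 2 + ‖y n t‖ ^ 2 → α (n + 1) ^ k * v ≤ (C1 + 1) * α k ^ k := by
    intro n hn t ht v hv hv2
    have h1 := hv2.trans (pair h hM1 h60 hs hx0 hy0 hb' n hn t ht)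
    have h2 : v ≤ C1 * (α (n + 1) ^ (n + 2))⁻¹ := by
      refine (pow_le_pow_iff_left₀ hv (mul_nonneg hC0 (inv_nonneg.2 (pow_nonneg (ha0 _).le _)))
        two_ne_zero).1 ?_
      rw [mul_pow, hC1, Real.sq_sqrt (by positivity)]
      exact h1
    have h3 : α (n + 1) ^ k * (α (n + 1) ^ (n + 2))⁻¹ ≤ α k ^ k := by
      by_cases hk : k ≤ n + 2
      · have h4 : α (n + 1) ^ k * (α (n + 1) ^ (n + 2))⁻¹ ≤ 1 := by
          rw [← div_eq_mul_inv]
          exact div_le_one_of_le₀ (pow_le_pow_right₀ (ha _) hk) (pow_nonneg (ha0 _).le _)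
        exact h4.trans hak
      · have h4 : α (n + 1) ^ k ≤ α k ^ k :=
          pow_le_pow_left₀ (ha0 _).le (al_mono h (by omega)) k
        have h5 : (α (n + 1) ^ (n + 2))⁻¹ ≤ 1 := inv_le_one_of_one_le₀ (one_le_pow₀ (ha _))
        calc α (n + 1) ^ k * (α (n + 1) ^ (n + 2))⁻¹ ≤ α k ^ k * 1 := by
              have := (pow_pos (ha0 (n + 1)) (n + 2))
              gcongr
          _ = α k ^ k := mul_one _
    calc α (n + 1) ^ k * v ≤ α (n + 1) ^ k * (C1 * (α (n + 1) ^ (n + 2))⁻¹) :=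
          mul_le_mul_of_nonneg_left h2 (pow_nonneg (ha0 _).le _)
      _ = C1 * (α (n + 1) ^ k * (α (n + 1) ^ (n + 2))⁻¹) := by ring
      _ ≤ C1 * α k ^ k := mul_le_mul_of_nonneg_left h3 hC0
      _ ≤ (C1 + 1) * α k ^ k := by nlinarith
  refine ⟨fun n hn t ht => ?_, fun n hn t ht => ?_⟩
  · cases n with
    | zero =>
      have h1 := (hs.one 0 t ht).1
      have h2 : α 0 ^ k ≤ α k ^ k := pow_le_pow_left₀ (ha0 _).le (al_mono h (Nat.zero_le _)) k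
      calc α 0 ^ k * ‖x 0 t‖ ≤ α k ^ k * 1 := by
            have := pow_pos (ha0 k) k
            gcongr
        _ ≤ (C1 + 1) * α k ^ k := by nlinarith
    | succ n =>
      exact key n hn t ht _ (norm_nonneg _) (by nlinarith [sq_nonneg ‖y n t‖])
  · exact key n hn t ht _ (norm_nonneg _) (by nlinarith [sq_nonneg ‖x (n + 1) t‖])

end Pool.Agent.Y961.EM.PERS
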